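import Pool.Agent.Q161.ESG.Stm5
import Pool.Agent.W571.RK.L3

/-! # Project ESG (helper161), job INR: an element of the inertia group which moves the square root of `D` -/

set_option autoImplicit false

namespace Pool.Agent.Q14.ESG.Inr

open Polynomial Pool.Agent.Q161.ESG

section

variable {l : ℕ} [Fact l.Prime]

theorem norm_aut (τ : PadicAlgCl l ≃ₐ[ℚ_[l]] PadicAlgCl l) (x : PadicAlgCl l) : ‖τ x‖ = ‖x‖ :=
  (spectralNorm_eq_of_equiv τ x).symm

theorem exists_aut (K : IntermediateField ℚ_[l] (PadicAlgCl l)) {x : PadicAlgCl l} (hx : x ∉ K) :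
    ∃ τ : PadicAlgCl l ≃ₐ[ℚ_[l]] PadicAlgCl l, (∀ y ∈ K, τ y = y) ∧ τ x ≠ x := by
  by_contra hcon
  push Not at hcon
  apply hx
  rw [← InfiniteGalois.fixedField_fixingSubgroup K]
  intro τ
  exact hcon τ.1 (fun y hy => τ.2 ⟨y, hy⟩)

theorem fixed_mem {x : PadicAlgCl l} (hx : ∀ τ : PadicAlgCl l ≃ₐ[ℚ_[l]] PadicAlgCl l, τ x = x) :
    ∃ c : ℚ_[l], algebraMap ℚ_[l] (PadicAlgCl l) c = x := by
  by_contra hcon
  obtain ⟨τ, -, hτ⟩ := exists_aut (⊥ : IntermediateField ℚ_[l] (PadicAlgCl l)) (x := x) (by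
    intro h
    exact hcon (IntermediateField.mem_bot.1 h))
  exact hτ (hx τ)

/-- different roots of unity of order prime to `l` have distance one -/
theorem roots_dist {M : ℕ} (hM : ¬ l ∣ M) {a b : PadicAlgCl l} (ha : a ^ M = 1) (hb : b ^ M = 1)
    (hab : a ≠ b) : ‖a - b‖ = 1 := by
  have hM0 : M ≠ 0 := by
    rintro rfl
    exact hM (dvd_zero l)
  have hna : ∀ c : PadicAlgCl l, c ^ M = 1 → ‖c‖ = 1 := by
    intro c hc
    have h1 : ‖c‖ ^ M = 1 := by rw [← norm_pow, hc, norm_one]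
    exact (pow_eq_one_iff_of_nonneg (norm_nonneg _) hM0).1 h1
  have hle : ‖a - b‖ ≤ 1 := by
    refine (Pool.Agent.W571.RK.norm_sub_le_max' a b).trans ?_
    rw [hna a ha, hna b hb, max_self]
  refine le_antisymm hle (not_lt.1 fun hlt => ?_)
  have h1 : (a - b) * ∑ i ∈ Finset.range M, a ^ i * b ^ (M - 1 - i) = 0 := by
    rw [mul_comm, Commute.geom_sum₂_mul (Commute.all a b), ha, hb, sub_self]
  have h2 : ∑ i ∈ Finset.range M, a ^ i * b ^ (M - 1 - i) = 0 :=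
    (mul_eq_zero.1 h1).resolve_left (sub_ne_zero.2 hab)
  have h3 : ∑ i ∈ Finset.range M, (a ^ i * b ^ (M - 1 - i) - b ^ (M - 1)) = -(M * b ^ (M - 1)) := by
    rw [Finset.sum_sub_distrib, h2, Finset.sum_const, Finset.card_range, nsmul_eq_mul, zero_sub]
  have h4 : ‖∑ i ∈ Finset.range M, (a ^ i * b ^ (M - 1 - i) - b ^ (M - 1))‖ ≤ ‖a - b‖ := by
    refine IsUltrametricDist.norm_sum_le_of_forall_le_of_nonneg (norm_nonneg _) fun i hi => ?_
    rw [Finset.mem_range] at hi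
    have h5 : a ^ i * b ^ (M - 1 - i) - b ^ (M - 1) = (a ^ i - b ^ i) * b ^ (M - 1 - i) := by
      rw [sub_mul, ← pow_add, Nat.add_sub_cancel' (by omega)]
    have h6 : a ^ i - b ^ i = (∑ j ∈ Finset.range i, a ^ j * b ^ (i - 1 - j)) * (a - b) :=
      (Commute.geom_sum₂_mul (Commute.all a b) i).symm
    rw [h5, norm_mul, norm_pow, hna b hb, one_pow, mul_one, h6, norm_mul]
    refine mul_le_of_le_one_left (norm_nonneg _) ?_
    refine IsUltrametricDist.norm_sum_le_of_forall_le_of_nonneg zero_le_one fun j _ => ?_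
    rw [norm_mul, norm_pow, norm_pow, hna a ha, hna b hb, one_pow, one_pow, mul_one]
  rw [h3, norm_neg, norm_mul, norm_pow, hna b hb, one_pow, mul_one] at h4
  have h5 : ‖(M : PadicAlgCl l)‖ = 1 := by
    have h6 : ((M : ℕ) : PadicAlgCl l) = algebraMap ℚ_[l] (PadicAlgCl l) (M : ℚ_[l]) :=
      (map_natCast _ _).symm
    rw [h6]
    refine (PadicAlgCl.norm_extends l _).trans ?_
    rw [Padic.norm_natCast_eq_one_iff]
    exact ((Fact.out : l.Prime).coprime_iff_not_dvd).2 hM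
  rw [h5] at h4
  exact absurd h4 (not_le.2 hlt)

/-- the coefficients of a product of linear factors with integral zeros -/
theorem coeff_prod_le (S : Finset (PadicAlgCl l)) (hS : ∀ c ∈ S, ‖c‖ ≤ 1) (n : ℕ) :
    ‖(∏ c ∈ S, (X - C c)).coeff n‖ ≤ 1 := by
  classical
  induction S using Finset.induction_on generalizing n with
  | empty =>
    rw [Finset.prod_empty, coeff_one]
    split_ifs <;> simp
  | insert c S hc ih =>
    rw [Finset.prod_insert hc]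
    have ih' := ih fun d hd => hS d (Finset.mem_insert_of_mem hd)
    have hc1 : ‖c‖ ≤ 1 := hS c (Finset.mem_insert_self _ _)
    rw [sub_mul, coeff_sub, coeff_C_mul]
    refine (Pool.Agent.W571.RK.norm_sub_le_max' _ _).trans (max_le ?_ ?_)
    · cases n with
      | zero => simp
      | succ n =>
        rw [coeff_X_mul]
        exact ih' n
    · rw [norm_mul]
      exact mul_le_one₀ hc1 (norm_nonneg _) (ih' n)

/-- the norm of the square root of `D` -/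
theorem norm_sqrt {D : ℤ} (h1 : (l : ℤ) ∣ D) (h2 : ¬ (l : ℤ) ^ 2 ∣ D) {ϖ : PadicAlgCl l}
    (hϖ : ϖ ^ 2 = (D : PadicAlgCl l)) : 0 < ‖ϖ‖ ∧ ∀ c : ℚ_[l], ‖c‖ ≤ ‖ϖ‖ → ‖c‖ < ‖ϖ‖ := by
  have hl : l.Prime := Fact.out
  have hl1 : (1 : ℝ) < l := by exact_mod_cast hl.one_lt
  have hl0 : (0 : ℝ) < l := by linarith
  have hD0 : (D : ℚ_[l]) ≠ 0 := by
    intro h
    have h3 : D = 0 := by exact_mod_cast h
    exact h2 (h3 ▸ dvd_zero _)
  have hval := Padic.norm_eq_zpow_neg_valuation hD0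
  have hn : ‖ϖ‖ ^ 2 = (l : ℝ) ^ (-(1 : ℤ)) := by
    rw [← norm_pow, hϖ, ← map_intCast (algebraMap ℚ_[l] (PadicAlgCl l)) D]
    refine (PadicAlgCl.norm_extends l _).trans ?_
    have h3 : ‖(D : ℚ_[l])‖ ≤ (l : ℝ) ^ (-(1 : ℕ) : ℤ) :=
      (Padic.norm_int_le_pow_iff_dvd D 1).2 (by simpa using h1)
    have h4 : ¬ ‖(D : ℚ_[l])‖ ≤ (l : ℝ) ^ (-(2 : ℕ) : ℤ) := fun h =>
      h2 (by exact_mod_cast (Padic.norm_int_le_pow_iff_dvd D 2).1 h)
    rw [hval] at h3 h4 ⊢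
    rw [zpow_le_zpow_iff_right₀ hl1] at h3 h4
    push_cast at h3 h4
    congr 1
    omega
  have hpos : 0 < ‖ϖ‖ := by
    rcases (norm_nonneg ϖ).eq_or_lt with h | h
    · rw [← h] at hn
      have : (0 : ℝ) < (l : ℝ) ^ (-(1 : ℤ)) := zpow_pos hl0 _
      rw [← hn] at this
      norm_num at this
    · exact h
  refine ⟨hpos, fun c hc => lt_of_le_of_ne hc fun heq => ?_⟩
  have hc0 : c ≠ 0 := by
    rintro rfl
    rw [norm_zero] at heq
    exact hpos.ne heq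
  have h3 := Padic.norm_eq_zpow_neg_valuation hc0
  rw [← heq, h3, ← zpow_natCast, ← zpow_mul] at hn
  have h4 := zpow_right_injective₀ hl0 hl1.ne' hn
  push_cast at h4
  omega

/-- the square root of `D` is not in the field of the `M`-th roots of unity -/
theorem not_mem {D : ℤ} (h1 : (l : ℤ) ∣ D) (h2 : ¬ (l : ℤ) ^ 2 ∣ D) {ϖ : PadicAlgCl l}
    (hϖ : ϖ ^ 2 = (D : PadicAlgCl l)) {M : ℕ} (hM : ¬ l ∣ M) {ζ : PadicAlgCl l} (hζ : ζ ^ M = 1) :
    ϖ ∉ IntermediateField.adjoin ℚ_[l] {ζ} := by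
  classical
  intro hmem
  obtain ⟨hpos, hgap⟩ := norm_sqrt h1 h2 hϖ
  have hM0 : M ≠ 0 := by
    rintro rfl
    exact hM (dvd_zero l)
  obtain ⟨r, t, hrt⟩ := (IntermediateField.mem_adjoin_simple_iff ℚ_[l] ϖ).1 hmem
  obtain ⟨φ, hφ⟩ : ∃ φ : PadicAlgCl l → PadicAlgCl l, ∀ c, φ c = aeval c r / aeval c t :=
    ⟨_, fun _ => rfl⟩
  have hae : ∀ (τ : PadicAlgCl l ≃ₐ[ℚ_[l]] PadicAlgCl l) (c : PadicAlgCl l) (q : ℚ_[l][X]),
      τ (aeval c q) = aeval (τ c) q := by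
    intro τ c q
    exact (Polynomial.aeval_algHom_apply (τ : PadicAlgCl l →ₐ[ℚ_[l]] PadicAlgCl l) c q).symm
  have hφτ : ∀ (τ : PadicAlgCl l ≃ₐ[ℚ_[l]] PadicAlgCl l) (c : PadicAlgCl l), τ (φ c) = φ (τ c) := by
    intro τ c
    rw [hφ, hφ, map_div₀, hae, hae]
  have hφζ : φ ζ = ϖ := by rw [hφ, ← hrt]
  have hφn : ∀ c, φ c ^ 2 = (D : PadicAlgCl l) → ‖φ c‖ = ‖ϖ‖ := by
    intro c hc
    have h3 : ‖φ c‖ ^ 2 = ‖ϖ‖ ^ 2 := by rw [← norm_pow, ← norm_pow, hc, hϖ]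
    exact (pow_left_inj₀ (norm_nonneg _) (norm_nonneg _) two_ne_zero).1 h3
  -- the conjugates of `ζ`
  obtain ⟨S, hS⟩ : ∃ S : Finset (PadicAlgCl l), ∀ c, c ∈ S ↔
      ∃ τ : PadicAlgCl l ≃ₐ[ℚ_[l]] PadicAlgCl l, τ ζ = c := by
    refine ⟨(nthRootsFinset M (1 : PadicAlgCl l)).filter fun c =>
      ∃ τ : PadicAlgCl l ≃ₐ[ℚ_[l]] PadicAlgCl l, τ ζ = c, fun c => ?_⟩
    rw [Finset.mem_filter, mem_nthRootsFinset (Nat.pos_of_ne_zero hM0)]
    constructor
    · exact fun h => h.2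
    · rintro ⟨τ, rfl⟩
      exact ⟨by rw [← map_pow, hζ, map_one], τ, rfl⟩
  have hSM : ∀ c ∈ S, c ^ M = 1 := by
    intro c hc
    obtain ⟨τ, rfl⟩ := (hS c).1 hc
    rw [← map_pow, hζ, map_one]
  have hS1 : ∀ c ∈ S, ‖c‖ = 1 := by
    intro c hc
    have h3 : ‖c‖ ^ M = 1 := by rw [← norm_pow, hSM c hc, norm_one]
    exact (pow_eq_one_iff_of_nonneg (norm_nonneg _) hM0).1 h3
  have hζS : ζ ∈ S := (hS ζ).2 ⟨AlgEquiv.refl, rfl⟩
  have hSφ : ∀ c ∈ S, ‖φ c‖ = ‖ϖ‖ := by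
    intro c hc
    obtain ⟨τ, rfl⟩ := (hS c).1 hc
    rw [← hφτ, norm_aut, hφζ]
  -- the sums
  obtain ⟨γ, hγ⟩ : ∃ γ : ℕ → PadicAlgCl l, ∀ i, γ i = ∑ c ∈ S, φ c * c ^ i := ⟨_, fun _ => rfl⟩
  have hγn : ∀ i, ‖γ i‖ < ‖ϖ‖ := by
    intro i
    have hfix : ∀ τ : PadicAlgCl l ≃ₐ[ℚ_[l]] PadicAlgCl l, τ (γ i) = γ i := by
      intro τ
      rw [hγ, map_sum]
      refine Finset.sum_bij (fun c _ => τ c) ?_ ?_ ?_ ?_
      · intro c hc
        obtain ⟨σ, rfl⟩ := (hS c).1 hc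
        exact (hS _).2 ⟨τ * σ, rfl⟩
      · intro c _ d _ h
        exact τ.injective h
      · intro c hc
        obtain ⟨σ, rfl⟩ := (hS c).1 hc
        refine ⟨τ.symm (σ ζ), (hS _).2 ⟨τ.symm * σ, rfl⟩, τ.apply_symm_apply _⟩
      · intro c _
        rw [map_mul, map_pow, hφτ]
    obtain ⟨c, hc⟩ := fixed_mem hfix
    have hcn : ‖c‖ = ‖γ i‖ := by
      rw [← hc]
      exact (PadicAlgCl.norm_extends l c).symm
    rw [← hcn]
    refine hgap c ?_
    rw [hcn, hγ]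
    refine IsUltrametricDist.norm_sum_le_of_forall_le_of_nonneg hpos.le fun c hc => ?_
    rw [norm_mul, norm_pow, hS1 c hc, one_pow, mul_one, hSφ c hc]
  -- the polynomial
  obtain ⟨Q, hQ⟩ : ∃ Q : (PadicAlgCl l)[X], Q = ∏ c ∈ S.erase ζ, (X - C c) := ⟨_, rfl⟩
  have hQc : ∀ n, ‖Q.coeff n‖ ≤ 1 := by
    intro n
    rw [hQ]
    exact coeff_prod_le _ (fun c hc => (hS1 c (Finset.mem_of_mem_erase hc)).le) n
  have hQ0 : ∀ c ∈ S, c ≠ ζ → Q.eval c = 0 := by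
    intro c hc hne
    rw [hQ, eval_prod]
    refine Finset.prod_eq_zero (Finset.mem_erase.2 ⟨hne, hc⟩) ?_
    simp
  have hQ1 : ‖Q.eval ζ‖ = 1 := by
    rw [hQ, eval_prod, norm_prod]
    refine Finset.prod_eq_one fun c hc => ?_
    rw [Finset.mem_erase] at hc
    rw [eval_sub, eval_X, eval_C]
    exact roots_dist hM hζ (hSM c hc.2) hc.1.symm
  have hsum : ∑ i ∈ Finset.range (Q.natDegree + 1), Q.coeff i * γ i = ϖ * Q.eval ζ := by
    calc ∑ i ∈ Finset.range (Q.natDegree + 1), Q.coeff i * γ i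
        = ∑ c ∈ S, φ c * Q.eval c := by
          simp only [hγ, eval_eq_sum_range, Finset.mul_sum]
          rw [Finset.sum_comm]
          exact Finset.sum_congr rfl fun c _ => Finset.sum_congr rfl fun i _ => by ring
      _ = φ ζ * Q.eval ζ := by
          refine Finset.sum_eq_single_of_mem ζ hζS fun c hc hne => ?_
          rw [hQ0 c hc hne, mul_zero]
      _ = _ := by rw [hφζ]
  obtain ⟨i, hi, hle⟩ : ∃ i ∈ Finset.range (Q.natDegree + 1),
      ‖∑ i ∈ Finset.range (Q.natDegree + 1), Q.coeff i * γ i‖ ≤ ‖Q.coeff i * γ i‖ := by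
    obtain ⟨i, hi, h⟩ := IsUltrametricDist.exists_norm_finsetSum_le_of_nonempty
      (t := Finset.range (Q.natDegree + 1)) Finset.nonempty_range_add_one (fun i => Q.coeff i * γ i)
    exact ⟨i, hi, h⟩
  rw [hsum, norm_mul, hQ1, mul_one, norm_mul] at hle
  have h3 : ‖Q.coeff i‖ * ‖γ i‖ ≤ ‖γ i‖ := mul_le_of_le_one_left (norm_nonneg _) (hQc i)
  exact absurd (hle.trans h3) (not_le.2 (hγn i))

end

theorem inr : S_INR := by
  classical
  intro l _ hl D hD1 hD2 ϖ hϖ Z hZ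
  have hkey : ∃ M : ℕ, ¬ l ∣ M ∧ ∀ z ∈ Z, ∃ η : PadicAlgCl l, (η = 0 ∨ η ^ M = 1) ∧ ‖z - η‖ < 1 := by
    clear hϖ
    induction Z using Finset.induction_on with
    | empty => exact ⟨1, (Fact.out : l.Prime).one_lt.ne' ∘ Nat.dvd_one.1, fun z hz => absurd hz (Finset.notMem_empty _)⟩
    | insert z Z _ ih =>
      obtain ⟨M, hM, hM2⟩ := ih fun w hw => hZ w (Finset.mem_insert_of_mem hw)
      obtain ⟨η, hη1, hη2⟩ := Pool.Agent.W571.RK.l3 l z (hZ z (Finset.mem_insert_self _ _))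
      rcases hη1 with hη1 | ⟨N, hN, hN2⟩
      · refine ⟨M, hM, fun w hw => ?_⟩
        rcases Finset.mem_insert.1 hw with rfl | hw
        · exact ⟨η, Or.inl hη1, hη2⟩
        · exact hM2 w hw
      · refine ⟨M * N, fun h => ?_, fun w hw => ?_⟩
        · rcases ((Fact.out : l.Prime).dvd_mul).1 h with h | h
          · exact hM h
          · exact hN h
        · rcases Finset.mem_insert.1 hw with rfl | hw
          · exact ⟨η, Or.inr (by rw [mul_comm, pow_mul, hN2, one_pow]), hη2⟩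
          · obtain ⟨η', h1, h2⟩ := hM2 w hw
            refine ⟨η', ?_, h2⟩
            rcases h1 with h1 | h1
            · exact Or.inl h1
            · exact Or.inr (by rw [pow_mul, h1, one_pow])
  obtain ⟨M, hM, hM2⟩ := hkey
  have hM0 : M ≠ 0 := by
    rintro rfl
    exact hM (dvd_zero l)
  have : NeZero M := ⟨hM0⟩
  have : NeZero (M : PadicAlgCl l) := NeZero.charZero
  obtain ⟨ζ, hζ⟩ := HasEnoughRootsOfUnity.exists_primitiveRoot (PadicAlgCl l) M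
  obtain ⟨τ, hτ1, hτ2⟩ := exists_aut (IntermediateField.adjoin ℚ_[l] {ζ})
    (not_mem hD1 hD2 hϖ hM hζ.pow_eq_one)
  refine ⟨τ, ?_, ?_⟩
  · have h1 : (τ ϖ) ^ 2 = ϖ ^ 2 := by rw [← map_pow, hϖ, map_intCast]
    exact (sq_eq_sq_iff_eq_or_eq_neg.1 h1).resolve_left hτ2
  · intro z hz
    obtain ⟨η, hη1, hη2⟩ := hM2 z hz
    have hτη : τ η = η := by
      rcases hη1 with rfl | hη1
      · exact map_zero τ
      · obtain ⟨i, -, hi⟩ := hζ.eq_pow_of_pow_eq_one hη1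
        rw [← hi]
        refine hτ1 _ (pow_mem ?_ i)
        exact IntermediateField.subset_adjoin _ _ rfl
    have h1 : τ z - z = τ (z - η) - (z - η) := by
      rw [map_sub, hτη]
      ring
    rw [h1]
    refine (Pool.Agent.W571.RK.norm_sub_le_max' _ _).trans_lt (max_lt ?_ hη2)
    rw [norm_aut]
    exact hη2

end Pool.Agent.Q14.ESG.Inr
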