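import Pool.Agent.Q161.ESG.Stm5

/-! # Project ESG (helper161), job J3E: primes not dividing the twist -/

set_option autoImplicit false

namespace Pool.Agent.Q14.ESG

open Polynomial NumberField IsDedekindDomain Pool.Agent.Q161.ESG

section

variable {l : ℕ} [Fact l.Prime]

theorem norm_aut (τ : PadicAlgCl l ≃ₐ[ℚ_[l]] PadicAlgCl l) (x : PadicAlgCl l) : ‖τ x‖ = ‖x‖ :=
  (spectralNorm_eq_of_equiv τ x).symm

theorem norm_int_cast (D : ℤ) : ‖(D : PadicAlgCl l)‖ = ‖(D : ℚ_[l])‖ := by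
  rw [← map_intCast (algebraMap ℚ_[l] (PadicAlgCl l)) D]
  exact PadicAlgCl.norm_extends l _

theorem norm_int_le_one (D : ℤ) : ‖(D : PadicAlgCl l)‖ ≤ 1 := by
  rw [norm_int_cast]
  exact Padic.norm_int_le_one D

theorem norm_sub_le' (x y : PadicAlgCl l) : ‖x - y‖ ≤ max ‖x‖ ‖y‖ := by
  have h := IsUltrametricDist.norm_add_le_max x (-y)
  rwa [norm_neg, ← sub_eq_add_neg] at h

theorem norm_sub_eq {x y : PadicAlgCl l} (h : ‖y‖ < ‖x‖) : ‖x - y‖ = ‖x‖ := by
  have h1 : ‖x‖ ≠ ‖-y‖ := by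
    rw [norm_neg]
    exact h.ne'
  rw [sub_eq_add_neg, IsUltrametricDist.norm_add_eq_max_of_norm_ne_norm h1, norm_neg, max_eq_left h.le]

/-- zeros of monic polynomials with integral coefficients are integral -/
theorem norm_root_le {p : ℤ[X]} (hp : p.Monic) {x : PadicAlgCl l}
    (hx : eval₂ (Int.castRingHom (PadicAlgCl l)) x p = 0) : ‖x‖ ≤ 1 := by
  by_contra hcon
  rw [not_le] at hcon
  rw [eval₂_eq_sum_range, Finset.sum_range_succ] at hx
  have hlc : p.coeff p.natDegree = 1 := hp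
  rw [hlc, map_one, one_mul] at hx
  have h1 : x ^ p.natDegree =
      -∑ i ∈ Finset.range p.natDegree, (Int.castRingHom (PadicAlgCl l)) (p.coeff i) * x ^ i := by
    linear_combination hx
  rcases Nat.eq_zero_or_pos p.natDegree with h0 | h0
  · rw [h0] at h1
    simp at h1
  · have h2 : ‖∑ i ∈ Finset.range p.natDegree,
        (Int.castRingHom (PadicAlgCl l)) (p.coeff i) * x ^ i‖ ≤ ‖x‖ ^ (p.natDegree - 1) := by
      refine IsUltrametricDist.norm_sum_le_of_forall_le_of_nonneg (by positivity) fun i hi => ?_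
      rw [Finset.mem_range] at hi
      rw [norm_mul, norm_pow]
      have h3 : ‖(Int.castRingHom (PadicAlgCl l)) (p.coeff i)‖ ≤ 1 := norm_int_le_one _
      have h4 : ‖x‖ ^ i ≤ ‖x‖ ^ (p.natDegree - 1) := pow_le_pow_right₀ hcon.le (by omega)
      calc _ ≤ 1 * ‖x‖ ^ (p.natDegree - 1) :=
            mul_le_mul h3 h4 (by positivity) zero_le_one
        _ = _ := one_mul _
    have h3 : ‖x‖ ^ p.natDegree ≤ ‖x‖ ^ (p.natDegree - 1) := by
      rw [← norm_pow, h1, norm_neg]
      exact h2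
    have h4 : ‖x‖ ^ (p.natDegree - 1) < ‖x‖ ^ p.natDegree := pow_lt_pow_right₀ hcon (by omega)
    exact absurd h3 (not_le.2 h4)

theorem mem_rts {H : HP} {x : PadicAlgCl l} : x ∈ rts H l ↔ (pol H (PadicAlgCl l)).IsRoot x := by
  classical
  unfold rts
  rw [Multiset.mem_toFinset, mem_roots]
  exact (H.monic.map _).ne_zero

theorem norm_rts_le {H : HP} {x : PadicAlgCl l} (hx : x ∈ rts H l) : ‖x‖ ≤ 1 := by
  refine norm_root_le H.monic ?_
  have h := mem_rts.1 hx
  unfold pol at h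
  rwa [IsRoot.def, eval_map] at h

theorem aut_rts {H : HP} (τ : PadicAlgCl l ≃ₐ[ℚ_[l]] PadicAlgCl l) {x : PadicAlgCl l}
    (hx : x ∈ rts H l) : τ x ∈ rts H l := by
  rw [mem_rts] at hx ⊢
  unfold pol at hx ⊢
  rw [IsRoot.def, eval_map] at hx ⊢
  have h := Polynomial.hom_eval₂ H.pol (Int.castRingHom (PadicAlgCl l)) (τ : PadicAlgCl l →+* PadicAlgCl l) x
  rw [hx, map_zero] at h
  have h2 : (τ : PadicAlgCl l →+* PadicAlgCl l).comp (Int.castRingHom (PadicAlgCl l)) =
      Int.castRingHom (PadicAlgCl l) := RingHom.ext_int _ _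
  rw [h2] at h
  exact h.symm

theorem pol_prod {H : HP} (hH : Gl H l) (z : PadicAlgCl l) :
    (pol H (PadicAlgCl l)).eval z = ∏ x ∈ rts H l, (z - x) := by
  classical
  have hm : (pol H (PadicAlgCl l)).Monic := H.monic.map _
  rw [(IsAlgClosed.splits (pol H (PadicAlgCl l))).eval_eq_prod_roots_of_monic hm]
  have hnd := nodup_roots hH.1
  unfold rts
  rw [Finset.prod, Multiset.toFinset_val, Multiset.dedup_eq_self.2 hnd]

theorem card_rts {H : HP} (hH : Gl H l) : (rts H l).card = H.pol.natDegree := by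
  classical
  unfold rts
  rw [Multiset.toFinset_card_of_nodup (nodup_roots hH.1),
    ← (IsAlgClosed.splits (pol H (PadicAlgCl l))).natDegree_eq_card_roots]
  unfold pol
  rw [H.monic.natDegree_map]

/-- the values of the twist -/
theorem twist_prod {H : HP} (hH : Gl H l) {D : ℤ} (hD : (D : PadicAlgCl l) ≠ 0) (z : PadicAlgCl l) :
    (pol (H.twist D) (PadicAlgCl l)).eval z = ∏ x ∈ rts H l, (z - D * x) := by
  have h1 : pol (H.twist D) (PadicAlgCl l) = (pol H (PadicAlgCl l)).scaleRoots (D : PadicAlgCl l) := by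
    unfold pol HP.twist
    simp only
    rw [map_scaleRoots]
    · simp
    · rw [H.monic, map_one]
      exact one_ne_zero
  have h2 : z = D * (z / D) := by field_simp
  have h3 := scaleRoots_eval_mul (pol H (PadicAlgCl l)) (z / D) (D : PadicAlgCl l)
  rw [← h2] at h3
  rw [h1, h3, pol_prod hH]
  have h4 : (pol H (PadicAlgCl l)).natDegree = (rts H l).card := by
    rw [card_rts hH]
    unfold pol
    exact H.monic.natDegree_map _
  rw [h4, ← Finset.prod_const, ← Finset.prod_mul_distrib]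
  refine Finset.prod_congr rfl fun x _ => ?_
  field_simp

theorem norm_D {D : ℤ} (hD : ¬ (l : ℤ) ∣ D) : ‖(D : PadicAlgCl l)‖ = 1 := by
  refine le_antisymm (norm_int_le_one D) ?_
  rw [norm_int_cast]
  by_contra h
  exact hD (Padic.norm_intCast_lt_one_iff.1 (not_le.1 h))

end

theorem j3e : S_J3E := by
  classical
  intro l _ hl H hH D hD u v hu huv hcop
  have hD1 : ‖(D : PadicAlgCl l)‖ = 1 := norm_D hD
  have hD0 : (D : PadicAlgCl l) ≠ 0 := by
    intro h
    rw [h, norm_zero] at hD1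
    exact zero_ne_one hD1
  obtain ⟨g, hg⟩ := H.odd
  have haev : ∀ ρ : PadicAlgCl l, aeval ρ (pol (H.twist D) ℚ_[l]) = ∏ x ∈ rts H l, (ρ - D * x) := by
    intro ρ
    rw [← twist_prod hH hD0, ← pol_map (H.twist D) (algebraMap ℚ_[l] (PadicAlgCl l)), eval_map_algebraMap]
  have hval : ∀ ρ : PadicAlgCl l, aeval ρ u = 0 → (aeval ρ v) ^ 2 = ∏ x ∈ rts H l, (ρ - D * x) := by
    intro ρ hρ
    obtain ⟨w, hw⟩ := huv
    have h1 := congrArg (aeval ρ) hw
    rw [map_sub, map_mul, hρ, zero_mul, map_pow, haev] at h1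
    exact (sub_eq_zero.1 h1).symm
  have hne : ∀ ρ : PadicAlgCl l, aeval ρ u = 0 → aeval ρ v ≠ 0 := by
    intro ρ hρ h
    have h1 := hval ρ hρ
    rw [h, ← haev] at h1
    obtain ⟨a, b, hab⟩ := hcop
    have h2 := congrArg (aeval ρ) hab
    rw [map_add, map_mul, map_mul, hρ, ← h1, map_one] at h2
    simp at h2
  obtain ⟨a, ha⟩ : ∃ a : PadicAlgCl l → PadicAlgCl l → PadicAlgCl l, ∀ ρ x, a ρ x =
      if 1 < ‖ρ‖ then aeval ρ v / ρ ^ g else if ‖ρ - D * x‖ < 1 then aeval ρ v else 1 :=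
    ⟨_, fun _ _ => rfl⟩
  have hDx : ∀ x ∈ rts H l, ‖(D : PadicAlgCl l) * x‖ ≤ 1 := by
    intro x hx
    rw [norm_mul, hD1, one_mul]
    exact norm_rts_le hx
  have hnorm : ∀ ρ : PadicAlgCl l, aeval ρ u = 0 → ∀ x ∈ rts H l,
      a ρ x ≠ 0 ∧ ‖a ρ x‖ ^ 2 = ‖ρ - D * x‖ := by
    intro ρ hρ x hx
    have hv := hval ρ hρ
    have hv2 : ‖aeval ρ v‖ ^ 2 = ∏ x ∈ rts H l, ‖ρ - D * x‖ := by
      rw [← norm_pow, hv, norm_prod]
    rw [ha]
    split_ifs with h1 h2
    · have hρ0 : ρ ≠ 0 := by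
        rintro rfl
        rw [norm_zero] at h1
        linarith
      refine ⟨div_ne_zero (hne ρ hρ) (pow_ne_zero _ hρ0), ?_⟩
      have h3 : ∀ y ∈ rts H l, ‖ρ - D * y‖ = ‖ρ‖ := fun y hy =>
        norm_sub_eq (lt_of_le_of_lt (hDx y hy) h1)
      rw [Finset.prod_congr rfl h3, Finset.prod_const, card_rts hH, hg] at hv2
      have hρn : ‖ρ‖ ≠ 0 := norm_ne_zero_iff.2 hρ0
      rw [norm_div, div_pow, hv2, h3 x hx, norm_pow, ← pow_mul, pow_succ, mul_comm g 2]
      field_simp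
    · refine ⟨hne ρ hρ, ?_⟩
      rw [hv2, ← Finset.mul_prod_erase _ _ hx]
      have h3 : ∀ y ∈ (rts H l).erase x, ‖ρ - D * y‖ = 1 := by
        intro y hy
        rw [Finset.mem_erase] at hy
        have h4 : ‖(D : PadicAlgCl l) * (y - x)‖ = 1 := by
          rw [norm_mul, hD1, one_mul]
          exact hH.2 y hy.2 x hx hy.1
        have h5 : ρ - D * y = -(D * (y - x) - (ρ - D * x)) := by ring
        rw [h5, norm_neg, norm_sub_eq (by rw [h4]; exact h2), h4]
      rw [Finset.prod_congr rfl h3, Finset.prod_const_one, mul_one]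
    · refine ⟨one_ne_zero, ?_⟩
      rw [norm_one, one_pow]
      refine le_antisymm (not_lt.1 h2) ?_
      exact (norm_sub_le' _ _).trans (max_le (not_lt.1 h1) (hDx x hx))
  have haroot : ∀ ρ ∈ u.aroots (PadicAlgCl l), aeval ρ u = 0 := fun ρ hρ => (mem_aroots.1 hρ).2
  obtain ⟨s, hs⟩ : ∃ s : PadicAlgCl l → PadicAlgCl l, ∀ x, s x =
      ((u.aroots (PadicAlgCl l)).map fun ρ => a ρ x).prod := ⟨_, fun _ => rfl⟩
  refine ⟨fun x => (-1) ^ u.natDegree * aeval ((D : PadicAlgCl l) * x) u / s x ^ 2, s, ?_, ?_⟩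
  · intro τ x _
    have hroots : (u.aroots (PadicAlgCl l)).map τ = u.aroots (PadicAlgCl l) := by
      have h1 := (IsAlgClosed.splits (u.map (algebraMap ℚ_[l] (PadicAlgCl l)))).roots_map
        (τ : PadicAlgCl l →+* PadicAlgCl l)
      rw [Polynomial.map_map] at h1
      have h2 : (τ : PadicAlgCl l →+* PadicAlgCl l).comp (algebraMap ℚ_[l] (PadicAlgCl l)) =
          algebraMap ℚ_[l] (PadicAlgCl l) := by
        ext c
        exact τ.commutes c
      rw [h2] at h1
      exact h1.symm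
    have hav : ∀ ρ : PadicAlgCl l, a (τ ρ) (τ x) = τ (a ρ x) := by
      intro ρ
      rw [ha, ha, norm_aut]
      have h1 : τ ρ - D * τ x = τ (ρ - D * x) := by
        rw [map_sub, map_mul, map_intCast]
      have h2 : aeval (τ ρ) v = τ (aeval ρ v) := by
        have := Polynomial.aeval_algHom_apply (τ : PadicAlgCl l →ₐ[ℚ_[l]] PadicAlgCl l) ρ v
        exact this
      rw [h1, norm_aut, h2]
      split_ifs
      · rw [map_div₀, map_pow]
      · rfl
      · rw [map_one]
    rw [hs, hs, map_multiset_prod, Multiset.map_map]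
    rw [← hroots, Multiset.map_map, hroots]
    refine congrArg Multiset.prod (Multiset.map_congr rfl fun ρ _ => ?_)
    exact hav ρ
  · intro x hx
    have hs0 : s x ≠ 0 := by
      rw [hs]
      refine Multiset.prod_ne_zero ?_
      intro h0
      rw [Multiset.mem_map] at h0
      obtain ⟨ρ, hρ, h1⟩ := h0
      exact (hnorm ρ (haroot ρ hρ) x hx).1 h1
    refine ⟨?_, hs0, ?_⟩
    · have h1 : ‖(-1) ^ u.natDegree * aeval ((D : PadicAlgCl l) * x) u‖ = ‖s x‖ ^ 2 := by
        rw [norm_mul, norm_pow, norm_neg, norm_one, one_pow, one_mul,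
          Splits.aeval_eq_prod_aroots_of_monic (IsAlgClosed.splits _) hu, hs]
        have h2 : ∀ (m : Multiset (PadicAlgCl l)), ‖m.prod‖ = (m.map fun z => ‖z‖).prod := by
          intro m
          exact map_multiset_prod (normHom : PadicAlgCl l →*₀ ℝ) m
        rw [h2, h2, Multiset.map_map, Multiset.map_map, ← Multiset.prod_map_pow]
        refine congrArg Multiset.prod (Multiset.map_congr rfl fun ρ hρ => ?_)
        simp only [Function.comp]
        rw [(hnorm ρ (haroot ρ hρ) x hx).2, norm_sub_rev]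
      rw [norm_div, h1, norm_pow, div_self]
      exact pow_ne_zero _ (norm_ne_zero_iff.2 hs0)
    · field_simp

end Pool.Agent.Q14.ESG
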